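import Pool.Agent.H31.CN.T3

/-!
# The moments of the mollifier sums, asymptotically
-/

set_option autoImplicit false

open MeasureTheory Set Filter
open scoped Real

namespace Pool.Agent.H6.CN

open Pool.Agent.H31.CN

/-- the smoothed sum with a weight -/
noncomputable def W (g : ℕ → ℝ) (k q : ℕ) (y : ℝ) : ℝ :=
  ∑ n ∈ (Finset.Icc 1 ⌊y⌋₊).filter (fun n => Nat.Coprime n q),
    mr n * 2 ^ n.primeFactors.card / n * g n * Real.log (y / n) ^ k

theorem W_add (g h : ℕ → ℝ) (k q : ℕ) (y : ℝ) :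
    W (fun n => g n + h n) k q y = W g k q y + W h k q y := by
  unfold W
  rw [← Finset.sum_add_distrib]
  exact Finset.sum_congr rfl fun n _ => by ring

theorem W_smul (c : ℝ) (g : ℕ → ℝ) (k q : ℕ) (y : ℝ) :
    W (fun n => c * g n) k q y = c * W g k q y := by
  unfold W
  rw [Finset.mul_sum]
  exact Finset.sum_congr rfl fun n _ => by ring

theorem W_log (g : ℕ → ℝ) (k q : ℕ) (y : ℝ) (hy : 1 ≤ y) :
    W (fun n => g n * Real.log n) k q y = Real.log y * W g k q y - W g (k + 1) q y := by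
  unfold W
  rw [Finset.mul_sum, ← Finset.sum_sub_distrib]
  refine Finset.sum_congr rfl fun n hn => ?_
  have hn1 : 1 ≤ n := (Finset.mem_Icc.1 (Finset.mem_filter.1 hn).1).1
  have hn0 : (n : ℝ) ≠ 0 := by
    have : (0 : ℝ) < n := by exact_mod_cast hn1
    exact this.ne'
  have hy0 : y ≠ 0 := by linarith
  have e1 : Real.log n = Real.log y - Real.log (y / n) := by
    rw [Real.log_div hy0 hn0]
    ring
  beta_reduce
  rw [e1, pow_succ]
  ring

/-- the estimate of a weighted smoothed sum -/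
def Est (g : ℕ → ℝ) (e : ℕ) (a : ℕ → ℝ) : Prop :=
  ∀ k : ℕ, 5 ≤ k → ∃ C : ℝ, 0 < C ∧ ∀ (q : ℕ) (y : ℝ), 1 ≤ q → 2 ∣ q → 1 ≤ y →
    |W g k q y - Hq q * a k * Real.log y ^ (k + e - 2)| ≤
      C * Ef q ^ 2 * (1 + Real.log y) ^ (k + e - 3)

theorem one_le_Ef (q : ℕ) : 1 ≤ Ef q := by
  unfold Ef
  have h : ∀ p ∈ q.primeFactors, (1 : ℝ) ≤ 1 + 30 / Real.sqrt p := fun p _ => by
    have : 0 ≤ 30 / Real.sqrt (p : ℝ) := by positivity
    linarith
  calc (1 : ℝ) = ∏ _p ∈ q.primeFactors, (1 : ℝ) := by simp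
    _ ≤ _ := Finset.prod_le_prod (fun _ _ => zero_le_one) h

theorem est_one (hBK : T_BK) : Est (fun _ => 1) 0 (fun k => (k : ℝ) * (k - 1)) := by
  intro k hk
  obtain ⟨C, hC, h⟩ := hBK k hk
  refine ⟨C, hC, fun q y hq h2 hy => ?_⟩
  have e1 : W (fun _ => 1) k q y = Bk k q y := by
    unfold W Bk
    exact Finset.sum_congr rfl fun n _ => by ring
  rw [e1, Nat.add_zero]
  refine (h q y hq h2 hy).trans ?_
  have h1 := one_le_Ef q
  have hU : 0 ≤ Real.log y := Real.log_nonneg hy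
  have h3 : Ef q ≤ Ef q ^ 2 := by nlinarith
  have h4 : 0 ≤ (1 + Real.log y) ^ (k - 3) := by positivity
  exact mul_le_mul_of_nonneg_right (mul_le_mul_of_nonneg_left h3 hC.le) h4

theorem est_ve (hVS : T_VS) : Est (fun n => ve n) 2 (fun _ => -2) := by
  intro k hk
  obtain ⟨C, hC, h⟩ := hVS k hk
  refine ⟨C, hC, fun q y hq h2 hy => ?_⟩
  have e1 : k + 2 - 2 = k := by omega
  have e2 : k + 2 - 3 = k - 1 := by omega
  rw [e1, e2]
  have h3 := h q y hq h2 hy
  have e3 : W (fun n => ve n) k q y - Hq q * (-2) * Real.log y ^ k =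
      ∑ n ∈ (Finset.Icc 1 ⌊y⌋₊).filter (fun n => Nat.Coprime n q),
        mr n * 2 ^ n.primeFactors.card / n * ve n * Real.log (y / n) ^ k +
      2 * Hq q * Real.log y ^ k := by
    unfold W
    ring
  rw [e3]
  exact h3

theorem est_log {g : ℕ → ℝ} {e : ℕ} {a : ℕ → ℝ} (h : Est g e a) :
    Est (fun n => g n * Real.log n) (e + 1) (fun k => a k - a (k + 1)) := by
  intro k hk
  obtain ⟨C, hC, h1⟩ := h k hk
  obtain ⟨C', hC', h2⟩ := h (k + 1) (by omega)
  refine ⟨C + C', by linarith, fun q y hq h2q hy => ?_⟩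
  have hU : 0 ≤ Real.log y := Real.log_nonneg hy
  have e1 : k + (e + 1) - 2 = (k + e - 2) + 1 := by omega
  have e2 : k + (e + 1) - 3 = (k + e - 3) + 1 := by omega
  have e3 : k + 1 + e - 2 = (k + e - 2) + 1 := by omega
  have e4 : k + 1 + e - 3 = (k + e - 3) + 1 := by omega
  have b1 := h1 q y hq h2q hy
  have b2 := h2 q y hq h2q hy
  rw [e3, e4] at b2
  rw [W_log g k q y hy, e1, e2]
  have e5 : Real.log y * W g k q y - W g (k + 1) q y -
      Hq q * (a k - a (k + 1)) * Real.log y ^ (k + e - 2 + 1) =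
      Real.log y * (W g k q y - Hq q * a k * Real.log y ^ (k + e - 2)) -
      (W g (k + 1) q y - Hq q * a (k + 1) * Real.log y ^ (k + e - 2 + 1)) := by
    rw [pow_succ]
    ring
  rw [e5]
  refine (abs_sub _ _).trans ?_
  rw [abs_mul, abs_of_nonneg hU]
  have h5 : 0 ≤ C * Ef q ^ 2 * (1 + Real.log y) ^ (k + e - 3) := by positivity
  have h6 : Real.log y * |W g k q y - Hq q * a k * Real.log y ^ (k + e - 2)| ≤
      (1 + Real.log y) * (C * Ef q ^ 2 * (1 + Real.log y) ^ (k + e - 3)) :=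
    mul_le_mul (by linarith) b1 (abs_nonneg _) (by linarith)
  have e6 : (C + C') * Ef q ^ 2 * (1 + Real.log y) ^ (k + e - 3 + 1) =
      (1 + Real.log y) * (C * Ef q ^ 2 * (1 + Real.log y) ^ (k + e - 3)) +
      C' * Ef q ^ 2 * (1 + Real.log y) ^ (k + e - 3 + 1) := by
    rw [pow_succ]
    ring
  rw [e6]
  exact add_le_add h6 b2

theorem est_add {g h : ℕ → ℝ} {e : ℕ} {a b : ℕ → ℝ} (h1 : Est g e a) (h2 : Est h e b) :
    Est (fun n => g n + h n) e (fun k => a k + b k) := by
  intro k hk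
  obtain ⟨C, hC, h1⟩ := h1 k hk
  obtain ⟨C', hC', h2⟩ := h2 k hk
  refine ⟨C + C', by linarith, fun q y hq h2q hy => ?_⟩
  have b1 := h1 q y hq h2q hy
  have b2 := h2 q y hq h2q hy
  rw [W_add]
  have e5 : W g k q y + W h k q y - Hq q * (a k + b k) * Real.log y ^ (k + e - 2) =
      (W g k q y - Hq q * a k * Real.log y ^ (k + e - 2)) +
      (W h k q y - Hq q * b k * Real.log y ^ (k + e - 2)) := by ring
  rw [e5]
  refine (abs_add_le _ _).trans ?_
  have e6 : (C + C') * Ef q ^ 2 * (1 + Real.log y) ^ (k + e - 3) =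
      C * Ef q ^ 2 * (1 + Real.log y) ^ (k + e - 3) +
      C' * Ef q ^ 2 * (1 + Real.log y) ^ (k + e - 3) := by ring
  rw [e6]
  exact add_le_add b1 b2

theorem est_smul (c : ℝ) {g : ℕ → ℝ} {e : ℕ} {a : ℕ → ℝ} (h1 : Est g e a) :
    Est (fun n => c * g n) e (fun k => c * a k) := by
  intro k hk
  obtain ⟨C, hC, h1⟩ := h1 k hk
  refine ⟨(|c| + 1) * C, by positivity, fun q y hq h2q hy => ?_⟩
  have b1 := h1 q y hq h2q hy
  have hU : 0 ≤ Real.log y := Real.log_nonneg hy
  rw [W_smul]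
  have e5 : c * W g k q y - Hq q * (c * a k) * Real.log y ^ (k + e - 2) =
      c * (W g k q y - Hq q * a k * Real.log y ^ (k + e - 2)) := by ring
  rw [e5, abs_mul]
  have h5 : 0 ≤ C * Ef q ^ 2 * (1 + Real.log y) ^ (k + e - 3) := by positivity
  calc |c| * |W g k q y - Hq q * a k * Real.log y ^ (k + e - 2)| ≤
      (|c| + 1) * (C * Ef q ^ 2 * (1 + Real.log y) ^ (k + e - 3)) :=
        mul_le_mul (by linarith) b1 (abs_nonneg _) (by positivity)
    _ = _ := by ring

theorem Ef_mul_le (m n : ℕ) (hm : m ≠ 0) (hn : n ≠ 0) : Ef (m * n) ≤ Ef m * Ef n := by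
  unfold Ef
  rw [Nat.primeFactors_mul hm hn]
  have h := Finset.prod_union_inter (s₁ := m.primeFactors) (s₂ := n.primeFactors)
    (f := fun p : ℕ => 1 + 30 / Real.sqrt (p : ℝ))
  rw [← h]
  have h1 : (1 : ℝ) ≤ ∏ p ∈ m.primeFactors ∩ n.primeFactors, (1 + 30 / Real.sqrt (p : ℝ)) := by
    calc (1 : ℝ) = ∏ _p ∈ m.primeFactors ∩ n.primeFactors, (1 : ℝ) := by simp
      _ ≤ _ := Finset.prod_le_prod (fun _ _ => zero_le_one) fun p _ => by
        have : 0 ≤ 30 / Real.sqrt (p : ℝ) := by positivity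
        linarith
  have h2 : (0 : ℝ) ≤ ∏ p ∈ m.primeFactors ∪ n.primeFactors, (1 + 30 / Real.sqrt (p : ℝ)) :=
    Finset.prod_nonneg fun p _ => by positivity
  nlinarith

theorem mr_mul {m n : ℕ} (h : Nat.Coprime m n) : mr (m * n) = mr m * mr n := by
  unfold mr
  rw [ArithmeticFunction.isMultiplicative_moebius.map_mul_of_coprime h]
  push_cast
  ring

theorem abs_mr_le (n : ℕ) : |mr n| ≤ 1 := by
  unfold mr
  have := ArithmeticFunction.abs_moebius_le_one (n := n)
  exact_mod_cast this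

/-- the sum over the mollifier in terms of the weighted smoothed sums -/
theorem sum_eq (g : ℕ → ℝ) (P : Polynomial ℝ) (N : ℕ) (M : ℝ) (d : ℕ) (hM : 2 ≤ M) (hd : 1 ≤ d)
    (hdN : Nat.Coprime d N) :
    ∑ n ∈ (Finset.Icc 1 ⌊M⌋₊).filter (fun n => Nat.Coprime n d),
      cm P M N (d * n) * 2 ^ n.primeFactors.card / n * g n =
    mr d * ∑ k ∈ Finset.range (P.natDegree + 1),
      P.coeff k * (Real.log M ^ k)⁻¹ * W g k (d * N) (M / d) := by
  have hd0 : (0 : ℝ) < d := by exact_mod_cast hd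
  have hd1 : (1 : ℝ) ≤ d := by exact_mod_cast hd
  have hM0 : 0 < M := by linarith
  have hsub : (Finset.Icc 1 ⌊M / d⌋₊).filter (fun n => Nat.Coprime n (d * N)) ⊆
      (Finset.Icc 1 ⌊M⌋₊).filter (fun n => Nat.Coprime n d) := by
    intro n hn
    rw [Finset.mem_filter, Finset.mem_Icc] at hn ⊢
    refine ⟨⟨hn.1.1, hn.1.2.trans (Nat.floor_le_floor ?_)⟩, Nat.Coprime.coprime_mul_right_right hn.2⟩
    exact div_le_self hM0.le hd1
  rw [← Finset.sum_subset hsub]
  · have e1 : ∀ n ∈ (Finset.Icc 1 ⌊M / d⌋₊).filter (fun n => Nat.Coprime n (d * N)),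
        cm P M N (d * n) * 2 ^ n.primeFactors.card / n * g n =
        ∑ k ∈ Finset.range (P.natDegree + 1), mr d * (P.coeff k * (Real.log M ^ k)⁻¹ *
          (mr n * 2 ^ n.primeFactors.card / n * g n * Real.log (M / d / n) ^ k)) := by
      intro n hn
      rw [Finset.mem_filter, Finset.mem_Icc] at hn
      obtain ⟨⟨hn1, hn2⟩, hn3⟩ := hn
      have hnd : Nat.Coprime n d := Nat.Coprime.coprime_mul_right_right hn3
      have hnN : Nat.Coprime n N := Nat.Coprime.coprime_mul_left_right hn3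
      have hn0 : (0 : ℝ) < n := by exact_mod_cast hn1
      have hle : (n : ℝ) ≤ M / d := (Nat.le_floor_iff (by positivity)).1 hn2
      have hle2 : ((d * n : ℕ) : ℝ) ≤ M := by
        push_cast
        rw [le_div_iff₀ hd0] at hle
        linarith
      have hcop : Nat.Coprime (d * n) N := Nat.Coprime.mul_left hdN hnN
      have e2 : cm P M N (d * n) = mr d * mr n *
          ∑ k ∈ Finset.range (P.natDegree + 1), P.coeff k * (Real.log (M / d / n) / Real.log M) ^ k := by
        unfold cm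
        rw [if_pos ⟨hle2, hcop⟩, mr_mul hnd.symm, Polynomial.eval_eq_sum_range]
        push_cast
        rw [div_div]
      rw [e2, Finset.mul_sum, Finset.sum_mul, Finset.sum_div, Finset.sum_mul]
      refine Finset.sum_congr rfl fun k _ => ?_
      rw [div_pow]
      ring
    rw [Finset.sum_congr rfl e1, Finset.sum_comm, Finset.mul_sum]
    refine Finset.sum_congr rfl fun k _ => ?_
    unfold W
    rw [← Finset.mul_sum, ← Finset.mul_sum]
  · intro n hn hn'
    have : cm P M N (d * n) = 0 := by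
      unfold cm
      rw [if_neg]
      rintro ⟨h1, h2⟩
      apply hn'
      rw [Finset.mem_filter, Finset.mem_Icc] at hn ⊢
      have hnN : Nat.Coprime n N := Nat.Coprime.coprime_mul_left h2
      refine ⟨⟨hn.1.1, ?_⟩, Nat.Coprime.mul_right hn.2 hnN⟩
      rw [Nat.le_floor_iff (by positivity), le_div_iff₀ hd0]
      push_cast at h1
      linarith
    rw [this]
    ring

theorem core {g : ℕ → ℝ} {e : ℕ} {a : ℕ → ℝ} (h : Est g e a) (he : e ≤ 3) (P : Polynomial ℝ)
    (N : ℕ) (hX : Polynomial.X ^ 5 ∣ P) (hN : 1 ≤ N) (h2 : 2 ∣ N) (Mv : ℝ → ℝ)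
    (hMv : ∀ t, ∑ k ∈ Finset.range (P.natDegree + 1), P.coeff k * a k * t ^ (k + e - 2) = Mv t) :
    ∃ C : ℝ, 0 < C ∧ ∀ (M : ℝ) (d : ℕ), 2 ≤ M → 1 ≤ d → (d : ℝ) ≤ M → Nat.Coprime d N →
      |∑ n ∈ (Finset.Icc 1 ⌊M⌋₊).filter (fun n => Nat.Coprime n d),
        cm P M N (d * n) * 2 ^ n.primeFactors.card / n * g n -
        mr d * Hq (d * N) * Real.log M ^ ((e : ℤ) - 2) * Mv (Real.log (M / d) / Real.log M)| ≤
      C * Ef d ^ 2 * Real.log M ^ ((e : ℤ) - 3) := by
  have h' : ∀ k : ℕ, ∃ C : ℝ, 0 < C ∧ (5 ≤ k → ∀ (q : ℕ) (y : ℝ), 1 ≤ q → 2 ∣ q → 1 ≤ y →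
    |W g k q y - Hq q * a k * Real.log y ^ (k + e - 2)| ≤
      C * Ef q ^ 2 * (1 + Real.log y) ^ (k + e - 3)) := by
    intro k
    by_cases hk : 5 ≤ k
    · obtain ⟨C, hC, h3⟩ := h k hk
      exact ⟨C, hC, fun _ => h3⟩
    · exact ⟨1, one_pos, fun h => absurd h hk⟩
  choose Cf hCf0 hCf using h'
  have hcoef : ∀ k, k < 5 → P.coeff k = 0 := Polynomial.X_pow_dvd_iff.1 hX
  refine ⟨∑ k ∈ Finset.range (P.natDegree + 1), |P.coeff k| * (Cf k * Ef N ^ 2 * 3 ^ k) + 1, ?_, ?_⟩
  · have : 0 ≤ ∑ k ∈ Finset.range (P.natDegree + 1), |P.coeff k| * (Cf k * Ef N ^ 2 * 3 ^ k) :=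
      Finset.sum_nonneg fun k _ => by
        have := hCf0 k
        positivity
    linarith
  intro M d hM hd hdM hdN
  have hd0 : (0 : ℝ) < d := by exact_mod_cast hd
  have hM0 : 0 < M := by linarith
  have hl : 1 / 2 < Real.log M := by
    have h1 : Real.log 2 ≤ Real.log M := Real.log_le_log (by norm_num) hM
    have h2 := Real.log_two_gt_d9
    linarith
  have hl0 : 0 < Real.log M := by linarith
  have hy : 1 ≤ M / d := (one_le_div hd0).2 hdM
  set U := Real.log (M / d) with hU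
  set l := Real.log M with hldef
  have hU0 : 0 ≤ U := Real.log_nonneg hy
  have hUl : U ≤ l := by
    apply Real.log_le_log (by positivity)
    exact div_le_self hM0.le (by exact_mod_cast hd)
  have h3l : 1 + U ≤ 3 * l := by linarith
  have hE1 := one_le_Ef d
  have hE2 := one_le_Ef N
  rw [sum_eq g P N M d hM hd hdN, ← hMv]
  have e1 : mr d * Hq (d * N) * l ^ ((e : ℤ) - 2) *
      ∑ k ∈ Finset.range (P.natDegree + 1), P.coeff k * a k * (U / l) ^ (k + e - 2) =
      mr d * ∑ k ∈ Finset.range (P.natDegree + 1), P.coeff k * (l ^ k)⁻¹ *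
        (Hq (d * N) * a k * U ^ (k + e - 2)) := by
    rw [mul_assoc, mul_assoc, Finset.mul_sum, Finset.mul_sum]
    congr 1
    refine Finset.sum_congr rfl fun k _ => ?_
    rcases Nat.lt_or_ge k 5 with hk | hk
    · rw [hcoef k hk]
      ring
    · have e2 : l ^ ((e : ℤ) - 2) = l ^ (k + e - 2) * (l ^ k)⁻¹ := by
        rw [← zpow_natCast l (k + e - 2), ← zpow_natCast l k, ← zpow_neg, ← zpow_add₀ hl0.ne']
        congr 1
        omega
      rw [e2, div_pow]
      field_simp
  rw [e1, ← mul_sub, ← Finset.sum_sub_distrib, abs_mul]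
  have e3 : ∀ k ∈ Finset.range (P.natDegree + 1),
      |P.coeff k * (l ^ k)⁻¹ * W g k (d * N) (M / d) -
        P.coeff k * (l ^ k)⁻¹ * (Hq (d * N) * a k * U ^ (k + e - 2))| ≤
      |P.coeff k| * (Cf k * Ef N ^ 2 * 3 ^ k) * (Ef d ^ 2 * l ^ ((e : ℤ) - 3)) := by
    intro k _
    rcases Nat.lt_or_ge k 5 with hk | hk
    · rw [hcoef k hk]
      simp
    · rw [← mul_sub, abs_mul, abs_mul, abs_of_pos (a := (l ^ k)⁻¹) (by positivity), mul_assoc,
        mul_assoc |P.coeff k|]
      refine mul_le_mul_of_nonneg_left ?_ (abs_nonneg _)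
      have b1 := hCf k hk (d * N) (M / d) (Nat.mul_pos hd hN) (Dvd.dvd.mul_left h2 d) hy
      have b2 : Ef (d * N) ≤ Ef d * Ef N := Ef_mul_le d N (by omega) (by omega)
      have b3 : Ef (d * N) ^ 2 ≤ (Ef d * Ef N) ^ 2 :=
        pow_le_pow_left₀ (by linarith [one_le_Ef (d * N)]) b2 2
      have b4 : (1 + U) ^ (k + e - 3) ≤ 3 ^ k * l ^ (k + e - 3) := by
        calc (1 + U) ^ (k + e - 3) ≤ (3 * l) ^ (k + e - 3) :=
              pow_le_pow_left₀ (by linarith) h3l _
          _ = 3 ^ (k + e - 3) * l ^ (k + e - 3) := mul_pow _ _ _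
          _ ≤ _ := by
            refine mul_le_mul_of_nonneg_right ?_ (by positivity)
            exact pow_le_pow_right₀ (by norm_num) (by omega)
      have e4 : l ^ ((e : ℤ) - 3) = (l ^ k)⁻¹ * l ^ (k + e - 3) := by
        rw [← zpow_natCast l (k + e - 3), ← zpow_natCast l k, ← zpow_neg, ← zpow_add₀ hl0.ne']
        congr 1
        omega
      have hC0 := hCf0 k
      have hU1 : 0 ≤ (1 + U) ^ (k + e - 3) := by positivity
      calc (l ^ k)⁻¹ * |W g k (d * N) (M / d) - Hq (d * N) * a k * U ^ (k + e - 2)| ≤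
          (l ^ k)⁻¹ * (Cf k * Ef (d * N) ^ 2 * (1 + U) ^ (k + e - 3)) :=
            mul_le_mul_of_nonneg_left b1 (by positivity)
        _ ≤ (l ^ k)⁻¹ * (Cf k * (Ef d * Ef N) ^ 2 * (3 ^ k * l ^ (k + e - 3))) := by
            refine mul_le_mul_of_nonneg_left ?_ (by positivity)
            exact mul_le_mul (mul_le_mul_of_nonneg_left b3 hC0.le) b4 hU1 (by positivity)
        _ = _ := by
            rw [e4]
            ring
  have e5 := (Finset.abs_sum_le_sum_abs (fun k => P.coeff k * (l ^ k)⁻¹ * W g k (d * N) (M / d) -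
        P.coeff k * (l ^ k)⁻¹ * (Hq (d * N) * a k * U ^ (k + e - 2)))
        (Finset.range (P.natDegree + 1))).trans (Finset.sum_le_sum e3)
  rw [← Finset.sum_mul] at e5
  have e6 : 0 ≤ Ef d ^ 2 * l ^ ((e : ℤ) - 3) := by positivity
  have e7 := abs_mr_le d
  have e8 := abs_nonneg (mr d)
  have e9 := abs_nonneg (∑ k ∈ Finset.range (P.natDegree + 1),
    (P.coeff k * (l ^ k)⁻¹ * W g k (d * N) (M / d) -
        P.coeff k * (l ^ k)⁻¹ * (Hq (d * N) * a k * U ^ (k + e - 2))))
  refine (mul_le_of_le_one_left e9 e7).trans (e5.trans ?_)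
  rw [add_mul, add_mul, mul_assoc _ (Ef d ^ 2) (l ^ ((e : ℤ) - 3))]
  have : 0 ≤ 1 * Ef d ^ 2 * l ^ ((e : ℤ) - 3) := by positivity
  linarith

theorem cm_of_not_squarefree (P : Polynomial ℝ) (M : ℝ) (N m : ℕ) (h : ¬ Squarefree m) :
    cm P M N m = 0 := by
  unfold cm mr
  rw [ArithmeticFunction.moebius_eq_zero_of_not_squarefree h]
  simp

theorem deriv_eq (P : Polynomial ℝ) : P.derivative =
    ∑ k ∈ Finset.range (P.natDegree + 1), Polynomial.C (P.coeff k * k) * Polynomial.X ^ (k - 1) := by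
  conv_lhs => rw [P.as_sum_range_C_mul_X_pow]
  rw [Polynomial.derivative_sum]
  exact Finset.sum_congr rfl fun k _ => Polynomial.derivative_C_mul_X_pow _ _

theorem deriv2_eq (P : Polynomial ℝ) : P.derivative.derivative =
    ∑ k ∈ Finset.range (P.natDegree + 1),
      Polynomial.C (P.coeff k * k * (k - 1 : ℕ)) * Polynomial.X ^ (k - 1 - 1) := by
  rw [congrArg (fun Q : Polynomial ℝ => Polynomial.derivative Q) (deriv_eq P)]
  rw [Polynomial.derivative_sum]
  exact Finset.sum_congr rfl fun k _ => Polynomial.derivative_C_mul_X_pow _ _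

theorem sum_deriv (P : Polynomial ℝ) (t : ℝ) :
    ∑ k ∈ Finset.range (P.natDegree + 1), P.coeff k * k * t ^ (k - 1) = P.derivative.eval t := by
  rw [deriv_eq, Polynomial.eval_finsetSum]
  exact Finset.sum_congr rfl fun k _ => by simp

theorem sum_deriv2 (P : Polynomial ℝ) (t : ℝ) :
    ∑ k ∈ Finset.range (P.natDegree + 1), P.coeff k * (k * (k - 1)) * t ^ (k - 2) =
      P.derivative.derivative.eval t := by
  rw [deriv2_eq, Polynomial.eval_finsetSum]
  refine Finset.sum_congr rfl fun k _ => ?_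
  rcases Nat.eq_zero_or_pos k with rfl | hk
  · simp
  · have e1 : k - 1 - 1 = k - 2 := by omega
    rw [e1]
    simp only [Polynomial.eval_mul, Polynomial.eval_C, Polynomial.eval_pow, Polynomial.eval_X]
    push_cast [Nat.cast_sub hk]
    ring

theorem step (i j : ℕ) {e : ℕ} {g : ℕ → ℝ} {a : ℕ → ℝ} (h : Est g e a) (hije : i + j = e)
    (he : i + j ≤ 3)
    (P : Polynomial ℝ) (N : ℕ) (hX : Polynomial.X ^ 5 ∣ P) (hN : 1 ≤ N) (h2 : 2 ∣ N)
    (hMv : ∀ t, ∑ k ∈ Finset.range (P.natDegree + 1), P.coeff k * a k * t ^ (k + (i + j) - 2) =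
      Mf P i j t)
    (hmo : ∀ (M : ℝ) (d : ℕ), 1 ≤ d → mo i j (Bd P M N d) =
      ∑ n ∈ (Finset.Icc 1 ⌊M⌋₊).filter (fun n => Nat.Coprime n d),
        cm P M N (d * n) * 2 ^ n.primeFactors.card / n * g n) :
    ∃ C : ℝ, 0 < C ∧ (i + j ≤ 3 → ∀ (M : ℝ) (d : ℕ), 2 ≤ M → 1 ≤ d → (d : ℝ) ≤ M →
      Nat.Coprime d N →
      |mo i j (Bd P M N d) - mr d * Hq (d * N) * Real.log M ^ ((i : ℤ) + j - 2) *
        Mf P i j (Real.log (M / d) / Real.log M)| ≤
        C * Ef d ^ 2 * Real.log M ^ ((i : ℤ) + j - 3)) := by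
  subst hije
  obtain ⟨C, hC, h3⟩ := core h he P N hX hN h2 (Mf P i j) hMv
  refine ⟨C, hC, fun _ M d hM hd hdM hdN => ?_⟩
  have h4 := h3 M d hM hd hdM hdN
  rw [hmo M d hd]
  push_cast at h4
  exact h4

theorem pf_BAS (hBK : T_BK) (hVS : T_VS) (hBDM : T_BDM) (_hHQ : T_HQ) : T_BAS := by
  intro P N hX hN h2 _
  have h1 := est_one hBK
  have hl1 := est_log h1
  have hl2 := est_log hl1
  have hl3 := est_log hl2
  have hv := est_ve hVS
  have hvl := est_log hv
  have hb : ∀ (M : ℝ) (d : ℕ), 1 ≤ d → _ := fun M d hd => hBDM (cm P M N) ⌊M⌋₊ d hd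
    (fun m hm => cm_of_not_squarefree P M N m hm) (Bd P M N d) _ _ rfl rfl rfl
  have key : ∀ i j : ℕ, ∃ C : ℝ, 0 < C ∧ (i + j ≤ 3 → ∀ (M : ℝ) (d : ℕ), 2 ≤ M → 1 ≤ d →
      (d : ℝ) ≤ M → Nat.Coprime d N →
      |mo i j (Bd P M N d) - mr d * Hq (d * N) * Real.log M ^ ((i : ℤ) + j - 2) *
        Mf P i j (Real.log (M / d) / Real.log M)| ≤
        C * Ef d ^ 2 * Real.log M ^ ((i : ℤ) + j - 3)) := by
    intro i j
    by_cases hij : i + j ≤ 3
    swap
    · exact ⟨1, one_pos, fun h => absurd h hij⟩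
    have hi : i ≤ 3 := by omega
    have hj : j ≤ 3 := by omega
    interval_cases i <;> interval_cases j
    · -- 0 0
      refine step 0 0 h1 rfl hij P N hX hN h2 (fun t => ?_) (fun M d hd => ?_)
      · rw [show Mf P 0 0 t = P.derivative.derivative.eval t by simp [Mf]]
        exact sum_deriv2 P t
      · rw [(hb M d hd).1]
        exact Finset.sum_congr rfl fun n _ => by ring
    · -- 0 1
      refine step 0 1 (est_smul (1 / 2) hl1) rfl hij P N hX hN h2 (fun t => ?_) (fun M d hd => ?_)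
      · rw [show Mf P 0 1 t = -P.derivative.eval t by simp [Mf], ← sum_deriv,
          ← Finset.sum_neg_distrib]
        refine Finset.sum_congr rfl fun k _ => ?_
        have e1 : k + (0 + 1) - 2 = k - 1 := by omega
        rw [e1]
        push_cast
        ring
      · rw [(hb M d hd).2.2.1, Finset.mul_sum]
        exact Finset.sum_congr rfl fun n _ => by ring
    · -- 0 2
      refine step 0 2 (est_smul (1 / 4) (est_add hl2 hv)) rfl hij P N hX hN h2 (fun t => ?_)
        (fun M d hd => ?_)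
      · rw [show Mf P 0 2 t = 0 by simp [Mf]]
        refine Finset.sum_eq_zero fun k _ => ?_
        push_cast
        ring
      · rw [(hb M d hd).2.2.2.2.2.1, Finset.mul_sum]
        exact Finset.sum_congr rfl fun n _ => by ring
    · -- 0 3
      refine step 0 3 (est_smul (1 / 8) (est_add hl3 (est_smul 3 hvl))) rfl hij P N hX hN h2 (fun t => ?_)
        (fun M d hd => ?_)
      · rw [show Mf P 0 3 t = 0 by simp [Mf]]
        refine Finset.sum_eq_zero fun k _ => ?_
        push_cast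
        ring
      · rw [(hb M d hd).2.2.2.2.2.2.2.1, Finset.mul_sum]
        exact Finset.sum_congr rfl fun n _ => by ring
    · -- 1 0
      refine step 1 0 (est_smul (1 / 2) hl1) rfl hij P N hX hN h2 (fun t => ?_) (fun M d hd => ?_)
      · rw [show Mf P 1 0 t = -P.derivative.eval t by simp [Mf], ← sum_deriv,
          ← Finset.sum_neg_distrib]
        refine Finset.sum_congr rfl fun k _ => ?_
        have e1 : k + (1 + 0) - 2 = k - 1 := by omega
        rw [e1]
        push_cast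
        ring
      · rw [(hb M d hd).2.1, Finset.mul_sum]
        exact Finset.sum_congr rfl fun n _ => by ring
    · -- 1 1
      refine step 1 1 (est_smul (1 / 4) (est_add hl2 (est_smul (-1) hv))) rfl hij P N hX hN h2
        (fun t => ?_) (fun M d hd => ?_)
      · rw [show Mf P 1 1 t = P.eval t by simp [Mf], Polynomial.eval_eq_sum_range]
        refine Finset.sum_congr rfl fun k _ => ?_
        have e1 : k + (1 + 1) - 2 = k := by omega
        rw [e1]
        push_cast
        ring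
      · rw [(hb M d hd).2.2.2.1, Finset.mul_sum]
        exact Finset.sum_congr rfl fun n _ => by ring
    · -- 1 2
      refine step 1 2 (est_smul (1 / 8) (est_add hl3 (est_smul (-1) hvl))) rfl hij P N hX hN h2
        (fun t => ?_) (fun M d hd => ?_)
      · rw [show Mf P 1 2 t = 0 by simp [Mf]]
        refine Finset.sum_eq_zero fun k _ => ?_
        push_cast
        ring
      · rw [(hb M d hd).2.2.2.2.2.2.2.2.2, Finset.mul_sum]
        exact Finset.sum_congr rfl fun n _ => by ring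
    · exact absurd hij (by norm_num)
    · -- 2 0
      refine step 2 0 (est_smul (1 / 4) (est_add hl2 hv)) rfl hij P N hX hN h2 (fun t => ?_)
        (fun M d hd => ?_)
      · rw [show Mf P 2 0 t = 0 by simp [Mf]]
        refine Finset.sum_eq_zero fun k _ => ?_
        push_cast
        ring
      · rw [(hb M d hd).2.2.2.2.1, Finset.mul_sum]
        exact Finset.sum_congr rfl fun n _ => by ring
    · -- 2 1
      refine step 2 1 (est_smul (1 / 8) (est_add hl3 (est_smul (-1) hvl))) rfl hij P N hX hN h2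
        (fun t => ?_) (fun M d hd => ?_)
      · rw [show Mf P 2 1 t = 0 by simp [Mf]]
        refine Finset.sum_eq_zero fun k _ => ?_
        push_cast
        ring
      · rw [(hb M d hd).2.2.2.2.2.2.2.2.1, Finset.mul_sum]
        exact Finset.sum_congr rfl fun n _ => by ring
    · exact absurd hij (by norm_num)
    · exact absurd hij (by norm_num)
    · -- 3 0
      refine step 3 0 (est_smul (1 / 8) (est_add hl3 (est_smul 3 hvl))) rfl hij P N hX hN h2 (fun t => ?_)
        (fun M d hd => ?_)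
      · rw [show Mf P 3 0 t = 0 by simp [Mf]]
        refine Finset.sum_eq_zero fun k _ => ?_
        push_cast
        ring
      · rw [(hb M d hd).2.2.2.2.2.2.1, Finset.mul_sum]
        exact Finset.sum_congr rfl fun n _ => by ring
    · exact absurd hij (by norm_num)
    · exact absurd hij (by norm_num)
    · exact absurd hij (by norm_num)
  choose Cf hC0 hC using key
  refine ⟨∑ i ∈ Finset.range 4, ∑ j ∈ Finset.range 4, Cf i j, ?_, ?_⟩
  · exact Finset.sum_pos (fun i _ => Finset.sum_pos (fun j _ => hC0 i j) ⟨0, by simp⟩)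
      ⟨0, by simp⟩
  intro M d i j hM hd hdM _ hdN hij
  refine (hC i j hij M d hM hd hdM hdN).trans ?_
  have hl0 : 0 < Real.log M := Real.log_pos (by linarith)
  have h3 : Cf i j ≤ ∑ i ∈ Finset.range 4, ∑ j ∈ Finset.range 4, Cf i j := by
    refine le_trans ?_ (Finset.single_le_sum
      (f := fun i => ∑ j ∈ Finset.range 4, Cf i j)
      (fun i _ => Finset.sum_nonneg fun j _ => (hC0 i j).le)
      (Finset.mem_range.2 (by omega : i < 4)))
    exact Finset.single_le_sum (f := fun j => Cf i j) (fun j _ => (hC0 i j).le)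
      (Finset.mem_range.2 (by omega : j < 4))
  have h4 : 0 ≤ Real.log M ^ ((i : ℤ) + j - 3) := by positivity
  exact mul_le_mul_of_nonneg_right (mul_le_mul_of_nonneg_right h3 (by positivity)) h4

end Pool.Agent.H6.CN
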